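import Pool.Agent.Lib.helper20.DegC

open Complex Filter Topology Set

namespace Pool.Agent.Results.MP_bac04d_nt.AllLargeDegrees

/-- The gamma factor `G(s) = ∏ Γ(l_j s + m_j) · ∏ Γ(l'_j s + m'_j)⁻¹`. -/
noncomputable def gammaFactor {r r' : ℕ} (l : Fin r → ℝ) (m : Fin r → ℂ) (l' : Fin r' → ℝ)
    (m' : Fin r' → ℂ) (s : ℂ) : ℂ :=
  (∏ j, Gamma (l j * s + m j)) * ∏ j, (Gamma (l' j * s + m' j))⁻¹

/-- `F` belongs to the class `A^#` and has degree `d`. Identities between meromorphic functions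
are identities off a closed discrete set (the filter `codiscrete ℂ`). -/
def InClassA (F : ℂ → ℂ) (d : ℝ) : Prop :=
  Meromorphic F ∧ ¬ (F =ᶠ[codiscrete ℂ] 0) ∧
  (∃ (a : ℕ → ℂ) (σ₀ : ℝ), ∀ s : ℂ, σ₀ < s.re → LSeriesSummable a s ∧ F s = LSeries a s) ∧
  (∃ (P : Polynomial ℂ) (H : ℂ → ℂ), P ≠ 0 ∧ Differentiable ℂ H ∧
    (∀ s, P.eval s ≠ 0 → H s = P.eval s * F s) ∧
    ∀ σ₁ σ₂ : ℝ, ∃ C M : ℝ, ∀ s : ℂ, σ₁ ≤ s.re → s.re ≤ σ₂ → ‖H s‖ ≤ C * (1 + |s.im|) ^ M) ∧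
  ∃ (Q : ℝ) (ω : ℂ) (r r' : ℕ) (l : Fin r → ℝ) (m : Fin r → ℂ) (l' : Fin r' → ℝ)
    (m' : Fin r' → ℂ), 0 < Q ∧ ‖ω‖ = 1 ∧ (∀ j, 0 < l j) ∧ (∀ j, 0 < l' j) ∧
    d = 2 * ∑ j, l j - 2 * ∑ j, l' j ∧
    (fun s => (Q : ℂ) ^ s * gammaFactor l m l' m' s * F s) =ᶠ[codiscrete ℂ]
      fun s => ω * (starRingEnd ℂ) ((Q : ℂ) ^ (1 - (starRingEnd ℂ) s) *
        gammaFactor l m l' m' (1 - (starRingEnd ℂ) s) * F (1 - (starRingEnd ℂ) s))

open Pool.Agent.H20Deg in
theorem result : ∀ d : ℝ, 4 ≤ d → ∃ F : ℂ → ℂ, InClassA F d := by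
  intro d hd
  obtain ⟨c, K, c1, hc, fe⟩ := exists_coeff hd
  have D : Data d c K := ⟨hd, hc, fe⟩
  have hK := D.K_nonneg
  have hd0 : 0 < d := by linarith
  set b : ℝ := Real.pi / 10 ^ 6 with hb
  have hb0 : 0 < b := by have := Real.pi_pos; positivity
  have hb1 : b ≤ 1 := by have := Real.pi_lt_d2; rw [hb]; linarith
  have hbc : (b : ℂ) ≠ 0 := ofReal_ne_zero.mpr hb0.ne'
  set μ : ℝ := (1 - d) / 4 with hμ
  let W : ℂ → ℂ := fun s => ((d / 2 : ℝ) : ℂ) * s + (μ : ℂ)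
  have Wre : ∀ s, (W s).re = d / 2 * s.re + μ := fun s => by
    simp only [W, add_re, re_ofReal_mul, ofReal_re]
  have Wim : ∀ s, (W s).im = d / 2 * s.im := fun s => by
    simp only [W, add_im, im_ofReal_mul, ofReal_im, add_zero]
  have Wd : Differentiable ℂ W := by simp only [W]; fun_prop
  let F : ℂ → ℂ := fun s => (b : ℂ) ^ (W s) * FF d c (W s)
  have Fd : Differentiable ℂ F := (Wd.const_cpow (Or.inl hbc)).mul (D.FF_diff.comp Wd)
  let a : ℕ → ℂ := fun n => (c n : ℂ) * (((n : ℝ) ^ (-(2 / d * μ)) : ℝ) : ℂ)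
  have hsum : ∀ s : ℂ, 3 + d < s.re → LSeriesSummable a s ∧ F s = LSeries a s := by
    intro s hs
    have h1 : 3 * d ≤ 2 * (W s).re := by rw [Wre, hμ]; nlinarith
    have h2 := (D.FF_sum h1).mul_left ((b : ℂ) ^ (W s))
    have h3 : LSeriesHasSum a s (F s) := by
      refine (congrArg (fun f => HasSum f _) (funext fun n => ?_)).mpr h2
      rcases eq_or_ne n 0 with rfl | hn
      · simp [D.c_zero]
      have hn0 : (0:ℝ) < n := by exact_mod_cast Nat.pos_of_ne_zero hn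
      have hnc : ((n : ℝ) : ℂ) ≠ 0 := ofReal_ne_zero.mpr hn0.ne'
      have e1 : (((n : ℝ) ^ (2 / d) : ℝ) : ℂ) ^ (-W s) = ((n : ℝ) : ℂ) ^ (((2 / d : ℝ) : ℂ) * -W s) := by
        rw [cpow_def_of_ne_zero (ofReal_ne_zero.mpr (Real.rpow_pos_of_pos hn0 _).ne'),
          cpow_def_of_ne_zero hnc, ← ofReal_log (Real.rpow_pos_of_pos hn0 _).le,
          ← ofReal_log hn0.le, Real.log_rpow hn0]
        congr 1; push_cast; ring
      have e2 : ((2 / d : ℝ) : ℂ) * -W s = ((-(2 / d * μ) : ℝ) : ℂ) + -s := by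
        have : (d : ℂ) ≠ 0 := ofReal_ne_zero.mpr hd0.ne'
        simp only [W]; push_cast; field_simp; ring
      rw [LSeries.term_of_ne_zero hn, lam_eq, ← hb, ofReal_mul,
        mul_cpow_ofReal_nonneg hb0.le (by positivity), e1, e2, cpow_add _ _ hnc,
        ← ofReal_cpow hn0.le, cpow_neg, cpow_neg]
      have : (b : ℂ) ^ W s ≠ 0 := by simp [hbc]
      simp only [a, ofReal_natCast]
      field_simp
    exact ⟨h3.LSeriesSummable, h3.LSeries_eq.symm⟩
  refine ⟨F, fun s => (Fd.analyticAt s).meromorphicAt, fun h0 => ?_, ⟨a, 3 + d, hsum⟩,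
    ⟨1, F, one_ne_zero, Fd, by simp, fun σ₁ σ₂ => ?_⟩,
    b ^ (-(d / 2)), 1, 1, 0, ![d / 2], ![μ], ![], ![], by positivity, by simp, ?_, by simp,
    by simp; ring, ?_⟩
  · have hz : ∀ s, F s = 0 := by
      by_contra hne
      push Not at hne
      obtain ⟨s, hs⟩ := hne
      have h1 := AnalyticOnNhd.preimage_zero_mem_codiscrete (fun z _ => Fd.analyticAt z) hs
      have h2 : ∀ᶠ z in codiscrete ℂ, False := by
        filter_upwards [h0, h1] with z hz1 hz2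
        exact hz2 hz1
      have h3 : ∀ᶠ z in 𝓝[≠] (0:ℂ), False := by
        have h4 := mem_codiscreteWithin_iff_forall_mem_nhdsNE.mp h2 0 (mem_univ _)
        simpa using h4
      exact h3.exists.elim fun _ h => h
    have h1 : (fun x : ℝ ↦ LSeries a x) =ᶠ[atTop] 0 := by
      filter_upwards [eventually_gt_atTop (3 + d)] with x hx
      rw [← (hsum x (by simpa using hx)).2, hz]; rfl
    rcases LSeries_eventually_eq_zero_iff'.mp h1 with h | h
    · have := h 1 one_ne_zero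
      simp [a, c1] at this
    · have := (hsum ((4 + d : ℝ) : ℂ) (by rw [ofReal_re]; linarith)).1.abscissaOfAbsConv_le
      rw [h] at this
      exact EReal.coe_ne_top _ (top_le_iff.mp this)
  · obtain ⟨R, hR⟩ := exists_nat_ge (d / 2 * (|σ₁| + |σ₂|) + |μ|)
    obtain ⟨C, k, hC, hbd⟩ := D.FF_bound R
    refine ⟨b ^ (-(R:ℝ)) * (C * (1 + d / 2) ^ k), k, fun s h1 h2 => ?_⟩
    have h3 : |s.re| ≤ |σ₁| + |σ₂| := by
      have := neg_abs_le σ₁
      have := le_abs_self σ₂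
      have := abs_nonneg σ₁
      have := abs_nonneg σ₂
      rw [abs_le]; constructor <;> linarith
    have h4 : |(W s).re| ≤ R := by
      rw [Wre]
      refine (abs_add_le _ _).trans ?_
      rw [abs_mul, abs_of_pos (by positivity : 0 < d / 2)]
      nlinarith
    have h5 : 1 + |(W s).im| ≤ (1 + d / 2) * (1 + |s.im|) := by
      rw [Wim, abs_mul, abs_of_pos (by positivity : 0 < d / 2)]
      nlinarith [abs_nonneg s.im]
    have h6 : b ^ (W s).re ≤ b ^ (-(R:ℝ)) :=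
      Real.rpow_le_rpow_of_exponent_ge hb0 hb1 (abs_le.mp h4).1
    simp only [F]
    rw [norm_mul, norm_cpow_eq_rpow_re_of_pos hb0, Real.rpow_natCast]
    calc _ ≤ b ^ (-(R:ℝ)) * (C * (1 + |(W s).im|) ^ k) := by gcongr; exact hbd _ h4
      _ ≤ b ^ (-(R:ℝ)) * (C * ((1 + d / 2) * (1 + |s.im|)) ^ k) := by gcongr
      _ = _ := by rw [mul_pow]; ring
  · intro j; fin_cases j; simpa using hd0
  · have hG : ∀ s, gammaFactor ![d / 2] ![(μ : ℂ)] ![] ![] s = Gamma (W s) := fun s => by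
      simp [gammaFactor, W]
    have hPhi : ∀ s, Gamma (W s) ≠ 0 → (((b ^ (-(d / 2)) : ℝ) : ℂ)) ^ s * Gamma (W s) * F s =
        ((b ^ μ : ℝ) : ℂ) * LL d c 1 (W s) := by
      intro s hs
      have e1 : (((b ^ (-(d / 2)) : ℝ) : ℂ)) ^ s * (b : ℂ) ^ (W s) = ((b ^ μ : ℝ) : ℂ) := by
        rw [cpow_def_of_ne_zero (ofReal_ne_zero.mpr (Real.rpow_pos_of_pos hb0 _).ne'),
          ← ofReal_log (Real.rpow_pos_of_pos hb0 _).le, Real.log_rpow hb0, ofReal_cpow hb0.le,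
          cpow_def_of_ne_zero hbc, cpow_def_of_ne_zero hbc, ← ofReal_log hb0.le, ← Complex.exp_add]
        congr 1
        simp only [W]; push_cast; ring
      rw [← e1]
      simp only [F, FF]
      field_simp
    have hW : ∀ s, W (1 - (starRingEnd ℂ) s) = (starRingEnd ℂ) (1 / 2 - W s) := fun s => by
      simp only [W, map_sub, map_add, map_mul, conj_ofReal, map_div₀, map_one, map_ofNat, hμ]
      push_cast; ring
    have hA : AnalyticOnNhd ℂ (fun s => (Gamma (W s))⁻¹ * (Gamma (1 / 2 - W s))⁻¹) univ :=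
      fun z _ => Differentiable.analyticAt ((differentiable_one_div_Gamma.comp Wd).mul
        (differentiable_one_div_Gamma.comp (Wd.const_sub _))) z
    have hhalf : W (1 / 2) = 1 / 4 := by simp only [W, hμ]; push_cast; ring
    have h1 := hA.preimage_zero_mem_codiscrete (x := 1 / 2) (by
      rw [hhalf]
      exact mul_ne_zero (inv_ne_zero (Complex.Gamma_ne_zero_of_re_pos (by norm_num)))
        (inv_ne_zero (Complex.Gamma_ne_zero_of_re_pos (by norm_num))))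
    filter_upwards [h1] with s hs
    have hs' : (Gamma (W s))⁻¹ * (Gamma (1 / 2 - W s))⁻¹ ≠ 0 := hs
    have g1 : Gamma (W s) ≠ 0 := fun h => hs' (by simp [h])
    have g2 : Gamma (1 / 2 - W s) ≠ 0 := fun h => hs' (by rw [h]; simp)
    have g3 : Gamma (W (1 - (starRingEnd ℂ) s)) ≠ 0 := by
      rw [hW, Complex.Gamma_conj]; simpa using g2
    rw [hG, hG, hPhi s g1, hPhi _ g3, hW, map_mul, conj_ofReal, LL_conj, D.LL_fe, one_mul]

end Pool.Agent.Results.MP_bac04d_nt.AllLargeDegrees
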